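import Mathlib

set_option autoImplicit false

/-!
# Infinitely many `n` for which the abcd equation is solvable and its integer form is not

The sequence `1, 1, 2, 17, 41761, …`, in which three consecutive terms `u, v, w` satisfy
`u w = v ^ 4 + 1`, is periodic modulo `11` with period `12`; the pairs `(c, d)` of neighbours in the
positions `12 i + 2, 12 i + 3` are `≡ (2, 6)`, and `n = ((c² + d²)² + 1) / (c d) ≡ 6` modulo `11`.
If `n = (a + 1/a) (b + 1/b)`, then `a² + b² + 1 = 3 a b` and `n = a b + 3`, whence `n ≡ 2, 4` or `5`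
modulo `11`.
-/

namespace Pool.Agent.Results.MP_2bef4d_nt.InfinitelyMany

/-- the abcd equation `n = (a/b + b/a) (c/d + d/c)` is solvable in positive integers -/
def Abcd (n : ℕ) : Prop :=
  ∃ a b c d : ℕ, 0 < a ∧ 0 < b ∧ 0 < c ∧ 0 < d ∧
    (n : ℚ) = ((a : ℚ) / b + b / a) * ((c : ℚ) / d + d / c)

/-- the integer form `n = (a + 1/a) (b + 1/b)` is solvable in positive integers -/
def IntegerForm (n : ℕ) : Prop :=
  ∃ a b : ℕ, 0 < a ∧ 0 < b ∧ (n : ℚ) = ((a : ℚ) + (a : ℚ)⁻¹) * ((b : ℚ) + (b : ℚ)⁻¹)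

/-! ### The integer form -/

theorem vieta : ∀ N a b k : ℕ, a + b ≤ N → 0 < a → 0 < b → a * a + b * b + 1 = k * (a * b) →
    k = 3 := by
  intro N
  induction N with
  | zero => intro a b k h ha; omega
  | succ N ih =>
    -- the case `a < b`
    have main : ∀ a b k : ℕ, a + b ≤ N + 1 → 0 < a → a < b →
        a * a + b * b + 1 = k * (a * b) → k = 3 := by
      intro a b k h ha hab hk
      have hb : 0 < b := by omega
      -- `b' = k a - b`
      have h1 : b < k * a := by
        by_contra hcon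
        have h2 : k * a * b ≤ b * b := Nat.mul_le_mul_right b (by omega)
        nlinarith
      obtain ⟨b', hb'⟩ : ∃ b', k * a = b + b' := ⟨k * a - b, by omega⟩
      have h3 : b' * b = a * a + 1 := by
        have : k * (a * b) = (k * a) * b := by ring
        rw [this, hb'] at hk
        nlinarith
      have hb'0 : 0 < b' := by
        rcases Nat.eq_zero_or_pos b' with h | h
        · subst h; omega
        · exact h
      have h4 : b' ≤ a := by
        by_contra hcon
        have : (a + 1) * (a + 1) ≤ b' * b := Nat.mul_le_mul (by omega) (by omega)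
        nlinarith
      apply ih a b' k (by omega) ha hb'0
      have h5 : k * (a * b') = (k * a) * b' := by ring
      rw [h5, hb']
      nlinarith
    intro a b k h ha hb hk
    rcases lt_trichotomy a b with hab | hab | hab
    · exact main a b k h ha hab hk
    · subst hab
      have h1 : a * a ∣ 1 := by
        have h2 : a * a ∣ a * a + a * a + 1 := ⟨k, by rw [hk]; ring⟩
        exact (Nat.dvd_add_right (Dvd.intro_left 2 (by ring))).mp h2
      have h2 : a * a = 1 := Nat.dvd_one.mp h1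
      rw [h2] at hk
      omega
    · exact main b a k (by omega) hb hab (by rw [← mul_comm a b, ← hk]; ring)

theorem integerForm_eq {n : ℕ} (h : IntegerForm n) :
    ∃ a b : ℕ, a * a + b * b + 1 = 3 * (a * b) ∧ n = a * b + 3 := by
  obtain ⟨a, b, ha, hb, h⟩ := h
  have ha' : (a : ℚ) ≠ 0 := by exact_mod_cast ha.ne'
  have hb' : (b : ℚ) ≠ 0 := by exact_mod_cast hb.ne'
  have h1 : (n : ℚ) * (a * b) = (a * a + 1) * (b * b + 1) := by
    rw [h]
    field_simp
  have h2 : n * (a * b) = (a * a + 1) * (b * b + 1) := by exact_mod_cast h1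
  have h3 : n * (a * b) = (a * b) * (a * b) + (a * a + b * b + 1) := by rw [h2]; ring
  have h4 : a * b ≤ n := by
    by_contra hcon
    have : n * (a * b) ≤ (a * b) * (a * b) := Nat.mul_le_mul_right _ (by omega)
    omega
  obtain ⟨k, hk⟩ : ∃ k, n = a * b + k := ⟨n - a * b, by omega⟩
  have h5 : a * a + b * b + 1 = k * (a * b) := by
    rw [hk] at h3
    nlinarith
  have h6 := vieta (a + b) a b k le_rfl ha hb h5
  exact ⟨a, b, by rw [h5, h6], by rw [hk, h6]⟩

theorem integerForm_mod {n : ℕ} (h : IntegerForm n) : (n : ZMod 11) ≠ 6 := by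
  obtain ⟨a, b, h1, h2⟩ := integerForm_eq h
  have h3 : (a : ZMod 11) * a + b * b + 1 = 3 * (a * b) := by exact_mod_cast congrArg _ h1
  have h4 : (n : ZMod 11) = a * b + 3 := by rw [h2]; push_cast; ring
  rw [h4]
  generalize (a : ZMod 11) = x at h3
  generalize (b : ZMod 11) = y at h3
  revert x y
  decide

/-! ### The sequence -/

/-- the pairs of neighbours -/
def pair : ℕ → ℕ × ℕ
  | 0 => (1, 1)
  | i + 1 => ((pair i).2, ((pair i).2 ^ 4 + 1) / (pair i).1)

theorem pair_inv (i : ℕ) : 0 < (pair i).1 ∧ 0 < (pair i).2 ∧ (pair i).1 ≤ (pair i).2 ∧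
    (pair i).1 ∣ (pair i).2 ^ 4 + 1 ∧ (pair i).2 ∣ (pair i).1 ^ 4 + 1 := by
  induction i with
  | zero => simp [pair]
  | succ i ih =>
    obtain ⟨h1, h2, h3, h4, h5⟩ := ih
    simp only [pair]
    set u := (pair i).1
    set v := (pair i).2
    obtain ⟨w, hw⟩ := h4
    have hw' : (v ^ 4 + 1) / u = w := by rw [hw]; exact Nat.mul_div_cancel_left _ h1
    rw [hw']
    have hw0 : 0 < w := by
      rcases Nat.eq_zero_or_pos w with h | h
      · subst h; omega
      · exact h
    have hvw : v ≤ w := by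
      by_contra hcon
      have : u * w ≤ v * v := Nat.mul_le_mul h3 (by omega)
      have h6 : v * v ≤ v ^ 4 := by
        calc v * v = v ^ 2 := by ring
          _ ≤ v ^ 4 := Nat.pow_le_pow_right h2 (by norm_num)
      omega
    refine ⟨h2, hw0, hvw, ?_, ?_⟩
    · -- `v ∣ w ^ 4 + 1`
      have hcop : Nat.Coprime v u := by
        rw [Nat.coprime_iff_gcd_eq_one]
        have h7 : Nat.gcd v u ∣ v ^ 4 + 1 := (Nat.gcd_dvd_right v u).trans ⟨w, hw⟩
        have h8 : Nat.gcd v u ∣ v ^ 4 := (Nat.gcd_dvd_left v u).trans (dvd_pow_self v (by norm_num))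
        exact Nat.dvd_one.mp ((Nat.dvd_add_right h8).mp h7)
      have h9 : v ∣ u ^ 4 * (w ^ 4 + 1) := by
        have h10 : u ^ 4 * (w ^ 4 + 1) = (u * w) ^ 4 + u ^ 4 := by ring
        rw [h10, ← hw]
        have h11 : (v ^ 4 + 1) ^ 4 + u ^ 4 =
            v * (v ^ 3 * ((v ^ 4) ^ 3 + 4 * (v ^ 4) ^ 2 + 6 * v ^ 4 + 4)) + (u ^ 4 + 1) := by
          ring
        rw [h11]
        exact dvd_add (dvd_mul_right _ _) h5
      exact (Nat.Coprime.pow_right 4 hcop).dvd_of_dvd_mul_left h9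
    · exact ⟨u, by rw [hw]; ring⟩

theorem pair_succ_mul (i : ℕ) :
    (pair i).1 * (pair (i + 1)).2 = (pair i).2 ^ 4 + 1 := by
  obtain ⟨h1, h2, h3, h4, h5⟩ := pair_inv i
  simp only [pair]
  exact Nat.mul_div_cancel' h4

theorem pair_grow (i : ℕ) : i ≤ (pair i).2 := by
  induction i with
  | zero => simp [pair]
  | succ i ih =>
    obtain ⟨h1, h2, h3, h4, h5⟩ := pair_inv i
    have h6 := pair_succ_mul i
    have h7 : (pair i).2 < (pair (i + 1)).2 := by
      by_contra hcon
      have h8 : (pair i).1 * (pair (i + 1)).2 ≤ (pair i).2 * (pair i).2 :=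
        Nat.mul_le_mul h3 (by omega)
      have h9 : (pair i).2 * (pair i).2 ≤ (pair i).2 ^ 4 := by
        calc (pair i).2 * (pair i).2 = (pair i).2 ^ 2 := by ring
          _ ≤ (pair i).2 ^ 4 := Nat.pow_le_pow_right h2 (by norm_num)
      omega
    omega

/-- the residues modulo `11` -/
def res (i : ℕ) : ZMod 11 × ZMod 11 := (((pair i).1 : ZMod 11), ((pair i).2 : ZMod 11))

theorem res_next {i : ℕ} {x y z : ZMod 11} (h : res i = (x, y))
    (hz : ∀ w : ZMod 11, x * w = y ^ 4 + 1 → w = z) : res (i + 1) = (y, z) := by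
  have h6 := pair_succ_mul i
  have h7 : ((pair i).1 : ZMod 11) * ((pair (i + 1)).2 : ZMod 11) =
      ((pair i).2 : ZMod 11) ^ 4 + 1 := by exact_mod_cast congrArg _ h6
  have h1 : ((pair i).1 : ZMod 11) = x := congrArg Prod.fst h
  have h2 : ((pair i).2 : ZMod 11) = y := congrArg Prod.snd h
  rw [h1, h2] at h7
  exact Prod.ext h2 (hz _ h7)

theorem res_two_of {i : ℕ} (h : res i = (1, 1)) : res (i + 2) = (2, 6) :=
  res_next (res_next h (z := 2) (by decide)) (by decide)

theorem res_twelve_of {i : ℕ} (h : res i = (1, 1)) : res (i + 12) = (1, 1) := by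
  have e2 := res_two_of h
  have e3 := res_next e2 (z := 5) (by decide)
  have e4 := res_next e3 (z := 9) (by decide)
  have e5 := res_next e4 (z := 10) (by decide)
  have e6 := res_next e5 (z := 10) (by decide)
  have e7 := res_next e6 (z := 9) (by decide)
  have e8 := res_next e7 (z := 5) (by decide)
  have e9 := res_next e8 (z := 6) (by decide)
  have e10 := res_next e9 (z := 2) (by decide)
  have e11 := res_next e10 (z := 1) (by decide)
  exact res_next e11 (z := 1) (by decide)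

theorem res_period (i : ℕ) : res (12 * i) = (1, 1) := by
  induction i with
  | zero => simp [res, pair]
  | succ i ih => exact res_twelve_of ih

theorem res_two (i : ℕ) : res (12 * i + 2) = (2, 6) := res_two_of (res_period i)

/-- from a pair `c ∣ d ^ 4 + 1`, `d ∣ c ^ 4 + 1` we get a solution of the abcd equation -/
theorem abcd_of_pair {c d : ℕ} (hc : 0 < c) (hd : 0 < d) (h1 : c ∣ d ^ 4 + 1)
    (h2 : d ∣ c ^ 4 + 1) (hcd : c ≤ d) : ∃ n : ℕ, Abcd n ∧ n * (c * d) = (c ^ 2 + d ^ 2) ^ 2 + 1 ∧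
      d ≤ n := by
  have hcop : Nat.Coprime c d := by
    rw [Nat.coprime_iff_gcd_eq_one]
    have h7 : Nat.gcd c d ∣ d ^ 4 + 1 := (Nat.gcd_dvd_left c d).trans h1
    have h8 : Nat.gcd c d ∣ d ^ 4 := (Nat.gcd_dvd_right c d).trans (dvd_pow_self d (by norm_num))
    exact Nat.dvd_one.mp ((Nat.dvd_add_right h8).mp h7)
  have h3 : c ∣ (c ^ 2 + d ^ 2) ^ 2 + 1 := by
    have : (c ^ 2 + d ^ 2) ^ 2 + 1 = c * (c ^ 3 + 2 * c * d ^ 2) + (d ^ 4 + 1) := by ring
    rw [this]
    exact dvd_add (dvd_mul_right _ _) h1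
  have h4 : d ∣ (c ^ 2 + d ^ 2) ^ 2 + 1 := by
    have : (c ^ 2 + d ^ 2) ^ 2 + 1 = d * (d ^ 3 + 2 * c ^ 2 * d) + (c ^ 4 + 1) := by ring
    rw [this]
    exact dvd_add (dvd_mul_right _ _) h2
  obtain ⟨n, hn⟩ := hcop.mul_dvd_of_dvd_of_dvd h3 h4
  refine ⟨n, ⟨c ^ 2 + d ^ 2, 1, c, d, by positivity, one_pos, hc, hd, ?_⟩, by rw [hn]; ring, ?_⟩
  · have hc' : (c : ℚ) ≠ 0 := by exact_mod_cast hc.ne'
    have hd' : (d : ℚ) ≠ 0 := by exact_mod_cast hd.ne'
    have hs : ((c : ℚ) ^ 2 + (d : ℚ) ^ 2) ≠ 0 := by positivity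
    have hn' : (((c : ℚ) ^ 2 + (d : ℚ) ^ 2) ^ 2 + 1) = (c : ℚ) * d * n := by exact_mod_cast hn
    have h5 : (n : ℚ) = (((c : ℚ) ^ 2 + (d : ℚ) ^ 2) ^ 2 + 1) / (c * d) := by
      rw [hn']
      field_simp
    rw [h5]
    push_cast
    field_simp
  · by_contra hcon
    have h6 : c * d * n ≤ (d * d) * d := by
      apply Nat.mul_le_mul
      · exact Nat.mul_le_mul_right d hcd
      · omega
    have h7 : (d * d) * d ≤ (c ^ 2 + d ^ 2) ^ 2 := by
      calc (d * d) * d = d ^ 3 := by ring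
        _ ≤ d ^ 4 := Nat.pow_le_pow_right hd (by norm_num)
        _ = (d ^ 2) ^ 2 := by ring
        _ ≤ (c ^ 2 + d ^ 2) ^ 2 := Nat.pow_le_pow_left (by omega) 2
    omega

/-- **The answer to Q1 is yes.** -/
theorem result : {n : ℕ | 0 < n ∧ Abcd n ∧ ¬ IntegerForm n}.Infinite := by
  rw [Set.infinite_iff_exists_gt]
  intro N
  obtain ⟨h1, h2, h3, h4, h5⟩ := pair_inv (12 * (N + 1) + 2)
  obtain ⟨n, hn1, hn2, hn3⟩ := abcd_of_pair h1 h2 h4 h5 h3
  have hg := pair_grow (12 * (N + 1) + 2)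
  refine ⟨n, ⟨by omega, hn1, ?_⟩, by omega⟩
  intro hI
  apply integerForm_mod hI
  have hr := res_two (N + 1)
  unfold res at hr
  have hr1 : ((pair (12 * (N + 1) + 2)).1 : ZMod 11) = 2 := congrArg Prod.fst hr
  have hr2 : ((pair (12 * (N + 1) + 2)).2 : ZMod 11) = 6 := congrArg Prod.snd hr
  have hz : (n : ZMod 11) * (((pair (12 * (N + 1) + 2)).1 : ZMod 11) *
      ((pair (12 * (N + 1) + 2)).2 : ZMod 11)) =
      (((pair (12 * (N + 1) + 2)).1 : ZMod 11) ^ 2 +
        ((pair (12 * (N + 1) + 2)).2 : ZMod 11) ^ 2) ^ 2 + 1 := by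
    exact_mod_cast congrArg _ hn2
  rw [hr1, hr2] at hz
  generalize (n : ZMod 11) = x at hz
  revert x
  decide

end Pool.Agent.Results.MP_2bef4d_nt.InfinitelyMany
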